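import Mathlib
import Pool.Agent.H88.T2Final

namespace Pool.Agent.Results.MP_8c175f_gt.HausdorffNotWeaklyLindelof

/-- There is a Hausdorff space in which every discrete subset has Lindelöf closure, and which has
an open cover no countable subfamily of which has a dense union. -/
theorem result : ∃ (X : Type) (_ : TopologicalSpace X), T2Space X ∧
    (∀ D : Set X, DiscreteTopology D → LindelofSpace (closure D)) ∧
    ∃ 𝒰 : Set (Set X), (∀ U ∈ 𝒰, IsOpen U) ∧ ⋃₀ 𝒰 = Set.univ ∧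
      ∀ 𝒱 ⊆ 𝒰, 𝒱.Countable → ¬ Dense (⋃₀ 𝒱) := by
  obtain ⟨X, t, h1, h2, h3⟩ := Pool.Agent.H88.T2.main2
  exact ⟨X, t, h1, fun D hD => isLindelof_iff_lindelofSpace.1 (h2 D ⟨hD⟩), h3⟩

end Pool.Agent.Results.MP_8c175f_gt.HausdorffNotWeaklyLindelof
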